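import Pool.Agent.K1H59.VX.Stm

/-!
# Elimination of the first variable (task 541 of helper59)
-/

set_option autoImplicit false

namespace Pool.Agent.K1H70.EL

open MvPolynomial Pool.Agent.K1H59.VX

/-- a homogeneous component of a multiple of a homogeneous polynomial is a multiple of it -/
theorem hc_mul {σ R : Type*} [CommRing R] {h : ℕ} {H : MvPolynomial σ R} (hH : H.IsHomogeneous h)
    (D : ℕ) (A : MvPolynomial σ R) :
    ∃ A', homogeneousComponent D (A * H) = A' * H := by
  refine ⟨∑ i ∈ Finset.range (A.totalDegree + 1), if i + h = D then homogeneousComponent i A else 0,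
    ?_⟩
  conv_lhs => rw [← sum_homogeneousComponent A]
  rw [Finset.sum_mul, Finset.sum_mul, map_sum]
  refine Finset.sum_congr rfl fun i _ => ?_
  have h1 : homogeneousComponent i A * H ∈ homogeneousSubmodule σ R (i + h) :=
    (mem_homogeneousSubmodule _ _).2 ((homogeneousComponent_isHomogeneous i A).mul hH)
  rw [homogeneousComponent_of_mem h1]
  by_cases hi : i + h = D
  · simp [hi]
  · rw [if_neg hi, if_neg (Ne.symm hi), zero_mul]

/-- clearing the denominators -/
theorem clear {σ : Type*} (p : MvPolynomial σ ℚ) :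
    ∃ (N : ℤ) (p' : MvPolynomial σ ℤ), N ≠ 0 ∧ map (Int.castRingHom ℚ) p' = C (N : ℚ) * p := by
  induction p using MvPolynomial.induction_on with
  | C a =>
    refine ⟨a.den, C a.num, by exact_mod_cast a.den_nz, ?_⟩
    rw [map_C, ← C_mul]
    congr 1
    rw [eq_intCast, Int.cast_natCast, mul_comm]
    exact (Rat.mul_den_eq_num a).symm
  | add p q hp hq =>
    obtain ⟨N, p', hN, h1⟩ := hp
    obtain ⟨M, q', hM, h2⟩ := hq
    refine ⟨N * M, C M * p' + C N * q', mul_ne_zero hN hM, ?_⟩
    rw [map_add, map_mul, map_mul, h1, h2, map_C, map_C, eq_intCast, eq_intCast]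
    push_cast
    rw [C_mul]
    ring
  | mul_X p i hp =>
    obtain ⟨N, p', hN, h1⟩ := hp
    refine ⟨N, p' * X i, hN, ?_⟩
    rw [map_mul, h1, map_X, mul_assoc]

/-- elimination over the coefficients of one variable polynomials -/
theorem elimP {P : Type*} [CommRing P] [IsDomain P] [UniqueFactorizationMonoid P]
    (H G : Polynomial P) (hH : Irreducible H) (hG : ¬ H ∣ G) :
    ∃ (r : P) (A B : Polynomial P), r ≠ 0 ∧ Polynomial.C r = A * H + B * G := by
  classical
  by_cases hd : H.natDegree = 0
  · refine ⟨H.coeff 0, 1, 0, ?_, ?_⟩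
    · intro h0
      rw [Polynomial.eq_C_of_natDegree_eq_zero hd, h0] at hH
      exact hH.ne_zero (by simp)
    · rw [one_mul, zero_mul, add_zero]
      exact (Polynomial.eq_C_of_natDegree_eq_zero hd).symm
  · let K := FractionRing P
    have hp : H.IsPrimitive := hH.isPrimitive hd
    have h1 : Irreducible (H.map (algebraMap P K)) :=
      (hp.irreducible_iff_irreducible_map_fraction_map (K := K)).1 hH
    have h2 : ¬ H.map (algebraMap P K) ∣ G.map (algebraMap P K) := fun h =>
      hG (hp.dvd_of_fraction_map_dvd_fraction_map h)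
    obtain ⟨a, b, hab⟩ := (h1.coprime_iff_not_dvd).2 h2
    obtain ⟨c, c0, hc⟩ := IsLocalization.integerNormalization_spec (nonZeroDivisors P) a
    obtain ⟨d, d0, hd'⟩ := IsLocalization.integerNormalization_spec (nonZeroDivisors P) b
    rw [Algebra.smul_def, Polynomial.algebraMap_apply] at hc hd'
    rw [mem_nonZeroDivisors_iff_ne_zero] at c0 d0
    refine ⟨c * d, Polynomial.C d * IsLocalization.integerNormalization (nonZeroDivisors P) a,
      Polynomial.C c * IsLocalization.integerNormalization (nonZeroDivisors P) b,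
      mul_ne_zero c0 d0, ?_⟩
    apply Polynomial.map_injective (algebraMap P K) (IsFractionRing.injective _ _)
    rw [Polynomial.map_add, Polynomial.map_mul, Polynomial.map_mul, Polynomial.map_mul,
      Polynomial.map_mul, hc, hd', Polynomial.map_C, Polynomial.map_C, Polynomial.map_C, map_mul,
      Polynomial.C_mul]
    linear_combination (-(Polynomial.C (algebraMap P K c) * Polynomial.C (algebraMap P K d))) * hab

theorem fse_rename (n : ℕ) (r : MvPolynomial (Fin n) ℚ) :
    finSuccEquiv ℚ n (rename Fin.succ r) = Polynomial.C r := by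
  induction r using MvPolynomial.induction_on with
  | C a => simp [finSuccEquiv_apply]
  | add p q hp hq => rw [map_add, map_add, hp, hq, Polynomial.C_add]
  | mul_X p i hp => rw [map_mul, map_mul, hp, rename_X, finSuccEquiv_X_succ, Polynomial.C_mul]

theorem elimQ (n : ℕ) (H G : MvPolynomial (Fin (n + 1)) ℚ) (hH : Irreducible H) (hG : ¬ H ∣ G) :
    ∃ (r : MvPolynomial (Fin n) ℚ) (A B : MvPolynomial (Fin (n + 1)) ℚ),
      r ≠ 0 ∧ rename Fin.succ r = A * H + B * G := by
  let e := finSuccEquiv ℚ n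
  have h1 : Irreducible (e H) := (MulEquiv.irreducible_iff e).2 hH
  have h2 : ¬ e H ∣ e G := fun h => hG ((map_dvd_iff e).1 h)
  obtain ⟨r, A, B, hr, h⟩ := elimP (e H) (e G) h1 h2
  refine ⟨r, e.symm A, e.symm B, hr, ?_⟩
  apply e.injective
  rw [map_add, map_mul, map_mul, e.apply_symm_apply, e.apply_symm_apply, ← h]
  exact fse_rename n r

theorem t_ELIM : S_ELIM := by
  intro n h g H G hH hG hirr hnd
  obtain ⟨r, A, B, hr, hrAB⟩ := elimQ n (toQ H) (toQ G) hirr hnd
  obtain ⟨N1, r1, hN1, h1⟩ := clear r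
  obtain ⟨N2, A1, hN2, h2⟩ := clear A
  obtain ⟨N3, B1, hN3, h3⟩ := clear B
  have hinj : Function.Injective (Int.castRingHom ℚ) := Int.cast_injective
  have key : rename Fin.succ (C (N2 * N3) * r1)
      = (C (N1 * N3) * A1) * H + (C (N1 * N2) * B1) * G := by
    apply map_injective (Int.castRingHom ℚ) hinj
    have e0 : ∀ k : ℤ, rename Fin.succ (C (k : ℚ)) = (C (k : ℚ) : MvPolynomial (Fin (n + 1)) ℚ) :=
      fun k => rename_C _ _
    have hH' : map (Int.castRingHom ℚ) H = toQ H := rfl
    have hG' : map (Int.castRingHom ℚ) G = toQ G := rfl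
    have eC : ∀ (m : ℕ) (k : ℤ), map (Int.castRingHom ℚ) (C k : MvPolynomial (Fin m) ℤ)
        = C (k : ℚ) := fun m k => map_C _ _
    simp only [map_rename, map_mul, map_add, h1, h2, h3, eC, e0, hrAB, hH', hG']
    ring
  have hr1 : r1 ≠ 0 := by
    rintro rfl
    rw [map_zero] at h1
    have := mul_ne_zero (C_ne_zero.2 (Int.cast_ne_zero.2 hN1 : (N1 : ℚ) ≠ 0)) hr
    exact this h1.symm
  have hR : C (N2 * N3) * r1 ≠ 0 := mul_ne_zero (C_ne_zero.2 (mul_ne_zero hN2 hN3)) hr1
  obtain ⟨D, hD⟩ : ∃ D, homogeneousComponent D (C (N2 * N3) * r1) ≠ 0 := by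
    by_contra hcon
    push Not at hcon
    apply hR
    rw [← sum_homogeneousComponent (C (N2 * N3) * r1)]
    exact Finset.sum_eq_zero fun i _ => hcon i
  obtain ⟨A', hA'⟩ := hc_mul hH D (C (N1 * N3) * A1)
  obtain ⟨B', hB'⟩ := hc_mul hG D (C (N1 * N2) * B1)
  refine ⟨D, homogeneousComponent D (C (N2 * N3) * r1), A', B', hD,
    homogeneousComponent_isHomogeneous _ _, ?_⟩
  rw [rename_homogeneousComponent, key, map_add, hA', hB']

end Pool.Agent.K1H70.EL
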